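import Pool.Agent.H41.CP.GDefs

set_option autoImplicit false

/-!
# Project CPG: `gbb : S_GBB` (adapted from `Pool.Agent.H280.CP.BB`)
-/

namespace Pool.Agent.H355.CPG

open Pool.Agent.H41.CPG Finset

variable {r : ℕ}

lemma inv_app (f : PP r) (x : Fin (2 * r)) : f⁻¹ (f x) = x := Equiv.symm_apply_apply f x

lemma app_inv (f : PP r) (x : Fin (2 * r)) : f (f⁻¹ x) = x := Equiv.apply_symm_apply f x

/-- Hall's theorem: without a permutation avoiding the sets `A x` there is a large rectangle
inside `A`. -/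
lemma hall (A : Fin (2 * r) → Finset (Fin (2 * r))) (h : ¬ ∃ s : PP r, ∀ x, s x ∉ A x) :
    ∃ S T : Finset (Fin (2 * r)), 2 * r + 1 ≤ S.card + T.card ∧ ∀ x ∈ S, ∀ c ∈ T, c ∈ A x := by
  by_contra hc
  push Not at hc
  apply h
  have h1 : ∀ S : Finset (Fin (2 * r)), S.card ≤ (S.biUnion fun x => (A x)ᶜ).card := by
    intro S
    by_contra h2
    push Not at h2
    have h3 : 2 * r + 1 ≤ S.card + ((S.biUnion fun x => (A x)ᶜ)ᶜ).card := by
      rw [card_compl, Fintype.card_fin]
      have := card_le_univ (S.biUnion fun x => (A x)ᶜ)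
      rw [Fintype.card_fin] at this
      omega
    obtain ⟨x, hx, c, hc1, hc2⟩ := hc S _ h3
    rw [mem_compl, mem_biUnion] at hc1
    exact hc1 ⟨x, hx, mem_compl.2 hc2⟩
  obtain ⟨f, hf, hft⟩ := (Finset.all_card_le_biUnion_card_iff_exists_injective
    fun x => (A x)ᶜ).1 h1
  refine ⟨Equiv.ofBijective f (Finite.injective_iff_bijective.1 hf), fun x => ?_⟩
  exact mem_compl.1 (hft x)

/-- the values of `r + 1` permutations -/
def VV (F : Fin r → PP r) (g : PP r) (x : Fin (2 * r)) : Finset (Fin (2 * r)) :=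
  insert (g x) (univ.image fun i => F i x)

lemma VV_card (F : Fin r → PP r) (g : PP r) (x : Fin (2 * r)) : (VV F g x).card ≤ r + 1 := by
  unfold VV
  refine (card_insert_le _ _).trans ?_
  have h1 : (univ.image fun i => F i x).card ≤ (univ : Finset (Fin r)).card := card_image_le
  rw [card_univ, Fintype.card_fin] at h1
  omega

lemma mem_VV {F : Fin r → PP r} {g : PP r} {x c : Fin (2 * r)} :
    c ∈ VV F g x ↔ x ∈ VV (invF F) g⁻¹ c := by
  unfold VV invF
  rw [mem_insert, mem_insert, mem_image, mem_image]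
  constructor
  · rintro (h | ⟨i, _, h⟩)
    · left
      rw [h, inv_app]
    · right
      exact ⟨i, mem_univ _, by rw [← h, inv_app]⟩
  · rintro (h | ⟨i, _, h⟩)
    · left
      rw [h, app_inv]
    · right
      exact ⟨i, mem_univ _, by rw [← h, app_inv]⟩

theorem gbb : S_GBB := by
  intro r hr F g hbad
  have h1 : ¬ ∃ s : PP r, ∀ x, s x ∉ VV F g x := by
    rintro ⟨s, hs⟩
    apply hbad
    refine ⟨s, fun x => ⟨fun h => ?_, fun i h => ?_⟩⟩
    · apply hs x
      rw [h]
      exact mem_insert_self _ _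
    · apply hs x
      rw [h]
      exact mem_insert_of_mem (mem_image_of_mem (fun i => F i x) (mem_univ i))
  obtain ⟨S, T, hST, h2⟩ := hall _ h1
  have hS6 : S.card ≤ 2 * r := by
    have := card_le_univ S
    rwa [Fintype.card_fin] at this
  have hT6 : T.card ≤ 2 * r := by
    have := card_le_univ T
    rwa [Fintype.card_fin] at this
  obtain ⟨x0, hx0⟩ : S.Nonempty := by
    rw [← card_pos]
    omega
  obtain ⟨c0, hc0⟩ : T.Nonempty := by
    rw [← card_pos]
    omega
  have hT4 : T.card ≤ r + 1 := (card_le_card fun c hc => h2 x0 hx0 c hc).trans (VV_card F g x0)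
  have hS4 : S.card ≤ r + 1 :=
    (card_le_card fun x hx => mem_VV.1 (h2 x hx c0 hc0)).trans (VV_card (invF F) g⁻¹ c0)
  rcases Nat.lt_or_ge T.card (r + 1) with hlt | hge
  · right
    refine ⟨S, T, by omega, by omega, fun c hc => ?_⟩
    symm
    apply eq_of_subset_of_card_le
    · intro x hx
      exact mem_VV.1 (h2 x hx c hc)
    · exact (VV_card (invF F) g⁻¹ c).trans (by omega)
  · left
    obtain ⟨S', hS', hS'3⟩ := exists_subset_card_eq (show r ≤ S.card by omega)
    refine ⟨S', T, hS'3, by omega, fun x hx => ?_⟩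
    symm
    apply eq_of_subset_of_card_le
    · intro c hc
      exact h2 x (hS' hx) c hc
    · exact (VV_card F g x).trans (by omega)

end Pool.Agent.H355.CPG
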