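import Pool.Agent.H41.CP.GDefs

/-!
# Project CPG: discharging, `gdis : S_GDIS` (adapted from `Pool.Agent.H599.CP.Dis`)
-/

set_option autoImplicit false

namespace Pool.Agent.H355.CPG

open Pool.Agent.H41.CPG Finset
open Pool.Agent.H41.CP (nb dg)

section

variable {V : Type} [DecidableEq V] (G : SimpleGraph V) [DecidableRel G.Adj] (W : Finset V)

omit [DecidableEq V] in
theorem card_nb_filter (p : V → Prop) [DecidablePred p] (v : V) :
    ((nb G W v).filter p).card = ∑ u ∈ W, if G.Adj v u ∧ p u then 1 else 0 := by
  unfold nb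
  rw [Finset.filter_filter, Finset.card_filter]

omit [DecidableEq V] in
theorem double (a b : ℕ) :
    ∑ v ∈ W, (if dg G W v = a then ((nb G W v).filter fun u => b ≤ dg G W u).card else 0) =
    ∑ v ∈ W, (if b ≤ dg G W v then ((nb G W v).filter fun u => dg G W u = a).card else 0) := by
  have h1 : ∀ v ∈ W,
      (if dg G W v = a then ((nb G W v).filter fun u => b ≤ dg G W u).card else 0) =
      ∑ u ∈ W, if dg G W v = a ∧ G.Adj v u ∧ b ≤ dg G W u then 1 else 0 := by
    intro v _
    by_cases hv : dg G W v = a
    · rw [if_pos hv, card_nb_filter]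
      refine Finset.sum_congr rfl fun u _ => ?_
      by_cases hu : G.Adj v u ∧ b ≤ dg G W u
      · rw [if_pos hu, if_pos ⟨hv, hu⟩]
      · rw [if_neg hu, if_neg fun h => hu h.2]
    · rw [if_neg hv]
      symm
      exact Finset.sum_eq_zero fun u _ => if_neg fun h => hv h.1
  have h2 : ∀ u ∈ W,
      (if b ≤ dg G W u then ((nb G W u).filter fun v => dg G W v = a).card else 0) =
      ∑ v ∈ W, if dg G W v = a ∧ G.Adj v u ∧ b ≤ dg G W u then 1 else 0 := by
    intro u _
    by_cases hu : b ≤ dg G W u
    · rw [if_pos hu, card_nb_filter]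
      refine Finset.sum_congr rfl fun v _ => ?_
      by_cases hv : G.Adj u v ∧ dg G W v = a
      · rw [if_pos hv, if_pos ⟨hv.2, hv.1.symm, hu⟩]
      · rw [if_neg hv, if_neg fun h => hv ⟨h.2.1.symm, h.1⟩]
    · rw [if_neg hu]
      symm
      exact Finset.sum_eq_zero fun v _ => if_neg fun h => hu h.2.2
  rw [Finset.sum_congr rfl h1, Finset.sum_congr rfl h2, Finset.sum_comm]

end

theorem gdis : S_GDIS := by
  intro r hr V _ G _ W hlt
  by_contra hcon
  push Not at hcon
  obtain ⟨c3, c4, c5, c6⟩ := hcon
  -- charge at every vertex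
  have charge : ∀ v ∈ W,
      (r + 1) * (r + 2) +
        (if r + 3 ≤ dg G W v then ((nb G W v).filter fun u => dg G W u = r + 1).card else 0) ≤
      (r + 1) * dg G W v +
        (if dg G W v = r + 1 then ((nb G W v).filter fun u => r + 3 ≤ dg G W u).card else 0) := by
    intro v hv
    have hd := c3 v hv
    have hle : ((nb G W v).filter fun u => dg G W u = r + 1).card ≤ dg G W v :=
      Finset.card_filter_le _ _
    rcases Nat.lt_or_ge (dg G W v) (r + 2) with h5 | h5
    · have h4 : dg G W v = r + 1 := by omega
      rw [if_neg (by omega), if_pos h4]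
      have hall : (nb G W v).filter (fun u => r + 3 ≤ dg G W u) = nb G W v := by
        rw [Finset.filter_eq_self]
        intro a ha
        unfold nb at ha
        rw [Finset.mem_filter] at ha
        obtain ⟨haW, haA⟩ := ha
        have ha3 := c3 a haW
        have ha4 : dg G W a ≠ r + 1 := c4 v hv a haW haA h4
        have ha5 : dg G W a ≠ r + 2 := fun h => c5 a haW v hv haA.symm h h4
        omega
      rw [hall]
      have h4' : (nb G W v).card = r + 1 := h4
      rw [h4', h4]
      nlinarith
    · rw [if_neg (show ¬ dg G W v = r + 1 by omega)]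
      by_cases h6 : r + 3 ≤ dg G W v
      · rw [if_pos h6]
        by_cases e6 : dg G W v = r + 3
        · have := c6 v hv e6
          rw [e6]
          nlinarith
        · have h7 : r + 4 ≤ dg G W v := by omega
          nlinarith
      · rw [if_neg h6]
        have : dg G W v = r + 2 := by omega
        rw [this]
  have hsum := Finset.sum_le_sum charge
  rw [Finset.sum_add_distrib, Finset.sum_add_distrib, double G W, Finset.sum_const, smul_eq_mul,
    ← Finset.mul_sum] at hsum
  have h1 : (r + 1) * ∑ v ∈ W, dg G W v < (r + 1) * ((r + 2) * W.card) :=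
    Nat.mul_lt_mul_of_pos_left hlt (by omega)
  have h2 : W.card * ((r + 1) * (r + 2)) = (r + 1) * ((r + 2) * W.card) := by ring
  omega

end Pool.Agent.H355.CPG
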